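import Pool.Agent.HSK.Three

/-!
# MP_961d7e_lc: state counts of automaton partitions with a joint transition group of layered order
-/

set_option autoImplicit false

namespace Pool.Agent.Results.MP_961d7e_lc.LayeredOrder

open Pool.Agent.HL Pool.Agent.HSK

open Function

variable {α : Type} {s : ℕ} {d : Fin s → ℕ}

/-- The joint transition group of the automata `M i`: the group of permutations of the disjoint
union of the state sets generated by the simultaneous actions of the letters. -/
def jointGroup (M : ∀ i, DFA α (Fin (d i))) : Subgroup (Equiv.Perm (Σ i, Fin (d i))) :=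
  Subgroup.closure {σ | ∃ a : α, ∀ i (q : Fin (d i)), σ ⟨i, q⟩ = ⟨i, (M i).step q a⟩}

variable {M : ∀ i, DFA α (Fin (d i))}

/-- every word acts on the disjoint union by an element of the joint group -/
lemma exists_perm_of_word (hinj : ∀ i (a : α), Injective (fun q : Fin (d i) => (M i).step q a))
    (w : List α) : ∃ σ ∈ jointGroup M, ∀ i (q : Fin (d i)), σ ⟨i, q⟩ = ⟨i, (M i).evalFrom q w⟩ := by
  induction w with
  | nil => exact ⟨1, Subgroup.one_mem _, fun i q => rfl⟩
  | cons a w ih =>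
    obtain ⟨σ, hσ, hσ2⟩ := ih
    have hbij : ∀ i, Bijective (fun q : Fin (d i) => (M i).step q a) := fun i =>
      Finite.injective_iff_bijective.1 (hinj i a)
    let τ : Equiv.Perm (Σ i, Fin (d i)) := Equiv.sigmaCongrRight fun i => Equiv.ofBijective _ (hbij i)
    have hτ : ∀ i (q : Fin (d i)), τ ⟨i, q⟩ = ⟨i, (M i).step q a⟩ := fun i q => rfl
    refine ⟨σ * τ, Subgroup.mul_mem _ hσ (Subgroup.subset_closure ⟨a, hτ⟩), fun i q => ?_⟩
    rw [Equiv.Perm.mul_apply, hτ, hσ2]
    rfl

lemma exists_word_of_perm {σ : Equiv.Perm (Σ i, Fin (d i))} (hσ : σ ∈ jointGroup M) :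
    ∃ w : List α, ∀ i (q : Fin (d i)), σ ⟨i, q⟩ = ⟨i, (M i).evalFrom q w⟩ := by
  -- powers
  have hmul : ∀ σ τ : Equiv.Perm (Σ i, Fin (d i)),
      (∃ w : List α, ∀ i (q : Fin (d i)), σ ⟨i, q⟩ = ⟨i, (M i).evalFrom q w⟩) →
      (∃ w : List α, ∀ i (q : Fin (d i)), τ ⟨i, q⟩ = ⟨i, (M i).evalFrom q w⟩) →
      (∃ w : List α, ∀ i (q : Fin (d i)), (σ * τ) ⟨i, q⟩ = ⟨i, (M i).evalFrom q w⟩) := by
    rintro σ τ ⟨w, hw⟩ ⟨v, hv⟩
    refine ⟨v ++ w, fun i q => ?_⟩
    rw [Equiv.Perm.mul_apply, hv, hw, DFA.evalFrom_of_append]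
  have hone : ∃ w : List α, ∀ i (q : Fin (d i)),
      (1 : Equiv.Perm (Σ i, Fin (d i))) ⟨i, q⟩ = ⟨i, (M i).evalFrom q w⟩ := ⟨[], fun i q => rfl⟩
  have hpow : ∀ (σ : Equiv.Perm (Σ i, Fin (d i))) (k : ℕ),
      (∃ w : List α, ∀ i (q : Fin (d i)), σ ⟨i, q⟩ = ⟨i, (M i).evalFrom q w⟩) →
      (∃ w : List α, ∀ i (q : Fin (d i)), (σ ^ k) ⟨i, q⟩ = ⟨i, (M i).evalFrom q w⟩) := by
    intro σ k h
    induction k with
    | zero => simpa using hone
    | succ k ih => rw [pow_succ]; exact hmul _ _ ih h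
  induction hσ using Subgroup.closure_induction with
  | mem σ h =>
    obtain ⟨a, ha⟩ := h
    exact ⟨[a], fun i q => ha i q⟩
  | one => exact hone
  | mul σ τ _ _ h1 h2 => exact hmul σ τ h1 h2
  | inv σ _ h =>
    have h1 : σ⁻¹ = σ ^ (orderOf σ - 1) := by
      rw [eq_comm, ← mul_right_inj σ, mul_inv_cancel, ← pow_succ',
        Nat.sub_add_cancel (orderOf_pos σ), pow_orderOf_eq_one]
    rw [h1]
    exact hpow σ _ h

/-- **Theorem.** Question Q1 has a positive answer for all automata whose joint transition group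
has an order whose set of prime divisors is layered (for instance has at most three elements). -/
theorem result (α : Type) [Fintype α] (s : ℕ) (d : Fin s → ℕ) (M : ∀ i, DFA α (Fin (d i)))
    (hd : ∀ i, 1 < d i)
    (hinj : ∀ i (a : α), Function.Injective (fun q : Fin (d i) => (M i).step q a))
    (hacc : ∀ i, ∃ f : Fin (d i), (M i).accept = {f})
    (hconn : ∀ i (p q : Fin (d i)), ∃ w : List α, (M i).evalFrom p w = q)
    (hpart : ∀ w : List α, ∃! i, w ∈ (M i).accepts)
    (hG : Layered3 (Nat.card (jointGroup M)).primeFactors) :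
    ∃ j k : Fin s, j ≠ k ∧ d j = d k := by
  classical
  have hHS : HS (jointGroup M) :=
    hs_layered3 _ (fun p hp => Nat.prime_of_mem_primeFactors hp) hG _ (Finset.Subset.refl _)
  choose f hf using hacc
  -- the point of the disjoint union corresponding to the start state
  let x : ∀ i : Fin s, (Σ i, Fin (d i)) := fun i => ⟨i, (M i).start⟩
  let y : ∀ i : Fin s, (Σ i, Fin (d i)) := fun i => ⟨i, f i⟩
  have htrans : ∀ i (q : Fin (d i)), ∃ g : jointGroup M, g • x i = ⟨i, q⟩ := by
    intro i q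
    obtain ⟨w, hw⟩ := hconn i (M i).start q
    obtain ⟨σ, hσ, hσ2⟩ := exists_perm_of_word hinj w
    exact ⟨⟨σ, hσ⟩, by
      show σ (x i) = _
      rw [hσ2, hw]⟩
  choose a ha using fun i => htrans i (f i)
  let H : Fin s → Subgroup (jointGroup M) := fun i => MulAction.stabilizer (jointGroup M) (x i)
  have hmem : ∀ i (g : jointGroup M), (a i)⁻¹ * g ∈ H i ↔ g • x i = y i := by
    intro i g
    rw [MulAction.mem_stabilizer_iff, mul_smul, inv_smul_eq_iff, ha]
  have hindex : ∀ i, (H i).index = d i := by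
    intro i
    rw [MulAction.index_stabilizer]
    have : MulAction.orbit (jointGroup M) (x i) = Set.range (fun q : Fin (d i) =>
        (⟨i, q⟩ : Σ i, Fin (d i))) := by
      ext z
      constructor
      · rintro ⟨g, rfl⟩
        obtain ⟨w, hw⟩ := exists_word_of_perm g.2
        exact ⟨_, (hw i (M i).start).symm⟩
      · rintro ⟨q, rfl⟩
        obtain ⟨g, hg⟩ := htrans i q
        exact ⟨g, hg⟩
    have hinj' : Function.Injective (fun q : Fin (d i) => (⟨i, q⟩ : Σ i, Fin (d i))) :=
      fun a b h => by simpa using h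
    rw [this, ← Set.image_univ, Set.ncard_image_of_injective _ hinj', Set.ncard_univ]
    simp
  obtain ⟨i, j, hij, h⟩ := hHS (Fin s) H a (by
    intro i h
    have := hindex i
    rw [h, Subgroup.index_top] at this
    have := hd i
    omega) (by
    intro g
    obtain ⟨w, hw⟩ := exists_word_of_perm g.2
    have key : ∀ i, (a i)⁻¹ * g ∈ H i ↔ w ∈ (M i).accepts := by
      intro i
      rw [hmem, DFA.mem_accepts, DFA.eval, hf i, Set.mem_singleton_iff]
      have h1 : g • x i = ⟨i, (M i).evalFrom (M i).start w⟩ := hw i (M i).start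
      rw [h1]
      constructor
      · intro h
        simpa [y] using h
      · intro h
        simp only [y, h]
    obtain ⟨i, hi, hu⟩ := hpart w
    exact ⟨i, (key i).2 hi, fun j hj => hu j ((key j).1 hj)⟩)
  exact ⟨i, j, hij, by rw [← hindex i, ← hindex j, h]⟩

end Pool.Agent.Results.MP_961d7e_lc.LayeredOrder
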